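import Pool.Agent.helper1.PR.Defs

/-! helper8.  [J9] `card_bad` and [J10] `lab_xx` of the PR project (MP_15abe0_co, helper1). -/

namespace Pool.Agent.helper1.PR

open Finset

/-- numbers in an interval whose small cell is the first or the last one of its group -/
private theorem card_edge8 {u G : ℤ} (hu : 0 < u) (hG : 0 < G) (A B : ℤ) :
    (#{a ∈ Ico (A * (G * u)) (B * (G * u)) | ¬ (1 ≤ (a / u) % G ∧ (a / u) % G + 1 < G)} : ℤ) ≤
      2 * ((B - A).toNat * u) := by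
  have hsub : {a ∈ Ico (A * (G * u)) (B * (G * u)) | ¬ (1 ≤ (a / u) % G ∧ (a / u) % G + 1 < G)} ⊆
      ((Ico A B ×ˢ Ico 0 u) ×ˢ ({0, G - 1} : Finset ℤ)).image
        (fun q => (q.1.1 * G + q.2) * u + q.1.2) := by
    intro a ha
    rw [mem_filter, mem_Ico] at ha
    obtain ⟨⟨h1, h2⟩, h3⟩ := ha
    rw [mem_image]
    have e1 : u * (a / u) + a % u = a := Int.mul_ediv_add_emod a u
    have e2 : G * (a / u / G) + (a / u) % G = a / u := Int.mul_ediv_add_emod (a / u) G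
    have m1 := Int.emod_nonneg a hu.ne'
    have m2 := Int.emod_lt_of_pos a hu
    have m3 := Int.emod_nonneg (a / u) hG.ne'
    have m4 := Int.emod_lt_of_pos (a / u) hG
    refine ⟨((a / u / G, a % u), (a / u) % G), ?_, ?_⟩
    · rw [mem_product, mem_product, mem_Ico, mem_Ico, mem_insert, mem_singleton]
      refine ⟨⟨⟨?_, ?_⟩, m1, m2⟩, ?_⟩
      · rw [Int.le_ediv_iff_mul_le hG, Int.le_ediv_iff_mul_le hu]
        calc A * G * u = A * (G * u) := by ring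
          _ ≤ a := h1
      · rw [Int.ediv_lt_iff_lt_mul hG, Int.ediv_lt_iff_lt_mul hu]
        calc a < B * (G * u) := h2
          _ = B * G * u := by ring
      · show (a / u) % G = 0 ∨ (a / u) % G = G - 1
        omega
    · show (a / u / G * G + (a / u) % G) * u + a % u = a
      linear_combination u * e2 + e1
  have h := card_le_card hsub
  have h2 := h.trans card_image_le
  rw [card_product, card_product, Int.card_Ico, Int.card_Ico] at h2
  have h3 : #({0, G - 1} : Finset ℤ) ≤ 2 := card_le_two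
  have h4 : ((u - 0).toNat : ℤ) = u := by
    rw [sub_zero]; exact Int.toNat_of_nonneg hu.le
  have h5 : (((B - A).toNat * (u - 0).toNat * #({0, G - 1} : Finset ℤ) : ℕ) : ℤ) ≤
      2 * ((B - A).toNat * u) := by
    push_cast
    rw [show (((u - 0 : ℤ)).toNat : ℤ) = u from h4]
    have : ((#({0, G - 1} : Finset ℤ) : ℕ) : ℤ) ≤ 2 := by exact_mod_cast h3
    have h6 : 0 ≤ ((B - A).toNat : ℤ) * u := by positivity
    nlinarith
  exact le_trans (by exact_mod_cast h2) h5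

theorem card_bad {s G L : ℕ} (hs : 0 < s) (hG : 0 < G) (hL : 0 < L) (h : s * G ∣ L) :
    #{w ∈ box L | ¬ GoodW s G L w} * G ≤ 4 * #(box L) := by
  obtain ⟨u, rfl⟩ := h
  have hu : 0 < u := Nat.pos_of_mul_pos_left hL
  have hu' : (0 : ℤ) < u := by exact_mod_cast hu
  have hG' : (0 : ℤ) < G := by exact_mod_cast hG
  have hs' : (0 : ℤ) < s := by exact_mod_cast hs
  set L : ℕ := s * G * u with hLdef
  -- the small cell number
  have key : ∀ a : ℤ, a * ((s : ℤ) * G) / ((L : ℕ) : ℤ) = a / u := by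
    intro a
    rw [hLdef]
    push_cast
    rw [mul_comm a, Int.mul_ediv_mul_of_pos _ _ (by positivity)]
  set BR : Finset ℤ := {a ∈ Ico (2 * (L : ℤ)) (4 * L) |
    ¬ (1 ≤ (a / (u : ℤ)) % G ∧ (a / (u : ℤ)) % G + 1 < G)} with hBR
  set BI : Finset ℤ := {a ∈ Ico (0 : ℤ) L |
    ¬ (1 ≤ (a / (u : ℤ)) % G ∧ (a / (u : ℤ)) % G + 1 < G)} with hBI
  have cR : (#BR : ℤ) ≤ 2 * ((2 * s : ℕ) * u) := by
    have e := card_edge8 hu' hG' (2 * s) (4 * s)
    have e1 : (2 * (s : ℤ)) * (G * u) = 2 * (L : ℤ) := by rw [hLdef]; push_cast; ring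
    have e2 : (4 * (s : ℤ)) * (G * u) = 4 * (L : ℤ) := by rw [hLdef]; push_cast; ring
    have e3 : (4 * (s : ℤ) - 2 * s).toNat = 2 * s := by omega
    rw [e1, e2, e3] at e
    exact e
  have cI : (#BI : ℤ) ≤ 2 * ((s : ℕ) * u) := by
    have e := card_edge8 hu' hG' 0 s
    have e1 : (0 : ℤ) * (G * u) = 0 := by ring
    have e2 : (s : ℤ) * (G * u) = (L : ℤ) := by rw [hLdef]; push_cast; ring
    have e3 : ((s : ℤ) - 0).toNat = s := by omega
    rw [e1, e2, e3] at e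
    exact e
  have hsub : {w ∈ box L | ¬ GoodW s G L w} ⊆
      ((BR ×ˢ Ico (0 : ℤ) L) ∪ (Ico (2 * (L : ℤ)) (4 * L) ×ˢ BI)).map
        ⟨fun p => (⟨p.1, p.2⟩ : ℤ√2), fun p q h => by
          have h1 := congrArg Zsqrtd.re h
          have h2 := congrArg Zsqrtd.im h
          exact Prod.ext h1 h2⟩ := by
    intro w hw
    rw [mem_filter, mem_box] at hw
    obtain ⟨⟨⟨h1, h2⟩, h3, h4⟩, h5⟩ := hw
    rw [mem_map]
    refine ⟨(w.re, w.im), ?_, rfl⟩
    unfold GoodW at h5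
    rw [key, key] at h5
    rw [mem_union, mem_product, mem_product, hBR, hBI, mem_filter, mem_filter, mem_Ico, mem_Ico]
    by_cases hb : (1 ≤ (w.re / (u : ℤ)) % G ∧ (w.re / (u : ℤ)) % G + 1 < G)
    · right
      exact ⟨⟨h1, h2⟩, ⟨h3, h4⟩, fun hc => h5 ⟨hb, hc⟩⟩
    · left; exact ⟨⟨⟨h1, h2⟩, hb⟩, h3, h4⟩
  have c1 := card_le_card hsub
  rw [card_map] at c1
  have c2 := c1.trans (card_union_le _ _)
  rw [card_product, card_product, Int.card_Ico, Int.card_Ico] at c2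
  have e4 : ((L : ℤ) - 0).toNat = L := by omega
  have e5 : (4 * (L : ℤ) - 2 * L).toNat = 2 * L := by omega
  rw [e4, e5] at c2
  rw [card_box]
  have c3 : ((#{w ∈ box L | ¬ GoodW s G L w} : ℕ) : ℤ) ≤ #BR * L + 2 * L * #BI := by
    exact_mod_cast c2
  have hLc : (L : ℤ) = s * G * u := by rw [hLdef]; push_cast; ring
  have c4 : ((#{w ∈ box L | ¬ GoodW s G L w} : ℕ) : ℤ) * G ≤ 8 * (L : ℤ) ^ 2 := by
    have hL0 : (0 : ℤ) ≤ L := by positivity
    push_cast at cR cI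
    calc ((#{w ∈ box L | ¬ GoodW s G L w} : ℕ) : ℤ) * G
        ≤ (#BR * L + 2 * L * #BI) * G := by gcongr
      _ ≤ ((2 * (2 * s * u)) * L + 2 * L * (2 * (s * u))) * G := by gcongr
      _ = 8 * L * (s * G * u) := by ring
      _ = 8 * (L : ℤ) ^ 2 := by rw [← hLc]; ring
  have c5 : ((#{w ∈ box L | ¬ GoodW s G L w} * G : ℕ) : ℤ) ≤ ((4 * (2 * L ^ 2) : ℕ) : ℤ) := by
    push_cast
    linarith
  exact_mod_cast c5

/-- two points which are close relative to their boxes lie in corresponding squares -/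
private theorem cell_eq8 {L Λ s G a x : ℤ} (hL : 0 < L) (hΛ : 0 < Λ) (hs : 0 < s) (hG : 0 < G)
    (h1 : 1 ≤ (a * (s * G) / L) % G) (h2 : (a * (s * G) / L) % G + 1 < G)
    (hx : |x * L * (s * G) - a * Λ * (s * G)| ≤ Λ * L) :
    a * s / L = (a * (s * G) / L) / G ∧ x * s / Λ = (a * (s * G) / L) / G := by
  set k := a * (s * G) / L with hk
  set c := k / G with hc
  set e := k % G with he
  have ek : G * c + e = k := Int.mul_ediv_add_emod k G
  have k1 : k * L ≤ a * (s * G) := Int.ediv_mul_le _ hL.ne'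
  have k2 : a * (s * G) < (k + 1) * L := Int.lt_ediv_add_one_mul_self _ hL
  obtain ⟨x1, x2⟩ := abs_le.1 hx
  have hLG : 0 < L * G := by positivity
  have hΛLG : 0 < Λ * L * G := by positivity
  constructor
  · refine le_antisymm ?_ ?_
    · rw [← Int.lt_add_one_iff, Int.ediv_lt_iff_lt_mul hL]
      have : a * s * G < (c + 1) * L * G := by
        have : (k + 1) * L ≤ (G * (c + 1)) * L := by
          apply mul_le_mul_of_nonneg_right _ hL.le
          nlinarith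
        nlinarith
      exact lt_of_mul_lt_mul_right this hG.le
    · rw [Int.le_ediv_iff_mul_le hL]
      have : c * L * G ≤ a * s * G := by
        have : (G * c) * L ≤ k * L := by
          apply mul_le_mul_of_nonneg_right _ hL.le
          linarith
        nlinarith
      exact le_of_mul_le_mul_right this hG
  · refine le_antisymm ?_ ?_
    · rw [← Int.lt_add_one_iff, Int.ediv_lt_iff_lt_mul hΛ]
      have h3 : x * s * (L * G) < (c + 1) * Λ * (L * G) := by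
        have h4 : a * (s * G) * Λ < (k + 1) * L * Λ := mul_lt_mul_of_pos_right k2 hΛ
        have h5 : (k + 2) * (L * Λ) ≤ (G * (c + 1)) * (L * Λ) := by
          apply mul_le_mul_of_nonneg_right _ (by positivity)
          nlinarith
        nlinarith
      exact lt_of_mul_lt_mul_right h3 hLG.le
    · rw [Int.le_ediv_iff_mul_le hΛ]
      have h3 : c * Λ * (L * G) ≤ x * s * (L * G) := by
        have h4 : k * L * Λ ≤ a * (s * G) * Λ := mul_le_mul_of_nonneg_right k1 hΛ.le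
        have h5 : (G * c) * (L * Λ) ≤ (k - 1) * (L * Λ) := by
          apply mul_le_mul_of_nonneg_right _ (by positivity)
          linarith
        nlinarith
      exact le_of_mul_le_mul_right h3 hLG

theorem lab_xx {Q' T h L s G : ℕ} (hQ : 0 < Q') (hT : 0 < T) (hh : 0 < h) (hL : 0 < L)
    (hs : 0 < s) (hG : 0 < G) {δ : ℝ} (hδ0 : 0 ≤ δ)
    (hδ : 3 * δ + 5 / (T : ℝ) ≤ 1 / ((s : ℝ) * G))
    {N z : ℤ√2} (hN : 4 * (Q' : ℤ√2) * N = z ^ 3 - 2 * Zsqrtd.sqrtd)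
    (hz : Near δ (h * (2 * Q') * T) z) {p : ℤ√2 × ℤ√2} (hp : p ∈ Om Q' L (h ^ 3 * L))
    (hg : GoodW s G L p.1) :
    xx Q' N p ∈ box (h ^ 3 * (2 * Q') ^ 2 * T ^ 3 * L) ∧
      (xx Q' N p).re * s / ((h ^ 3 * (2 * Q') ^ 2 * T ^ 3 * L : ℕ) : ℤ) = p.1.re * s / L ∧
      (xx Q' N p).im * s / ((h ^ 3 * (2 * Q') ^ 2 * T ^ 3 * L : ℕ) : ℤ) = p.1.im * s / L := by
  obtain ⟨w, y⟩ := p
  set Λ : ℕ := h ^ 3 * (2 * Q') ^ 2 * T ^ 3 * L with hΛdef
  simp only [Om, mem_filter, mem_product, mem_box] at hp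
  obtain ⟨⟨⟨⟨w1, w2⟩, w3, w4⟩, ⟨y1, y2⟩, y3, y4⟩, d1, d2⟩ := hp
  -- the coordinates of `t`
  obtain ⟨t1, ht1⟩ := d1
  obtain ⟨t2, ht2⟩ := d2
  have hQz : (0 : ℤ) < Q' := by exact_mod_cast hQ
  have et : tt Q' (w, y) = ⟨t2, t1⟩ := by
    unfold tt
    simp only
    rw [ht1, ht2, Int.mul_ediv_cancel_left _ hQz.ne', Int.mul_ediv_cancel_left _ (by positivity)]
  set x := xx Q' N (w, y) with hx
  have xre : x.re = N.re * w.re + 2 * N.im * w.im + t2 := by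
    rw [hx]; unfold xx; rw [et]; simp [mul_assoc]
  have xim : x.im = N.re * w.im + N.im * w.re + t1 := by
    rw [hx]; unfold xx; rw [et]; simp
  have nre : 4 * (Q' : ℤ) * N.re = (z ^ 3).re := by
    have := congrArg Zsqrtd.re hN
    simpa using this
  have nim : 4 * (Q' : ℤ) * N.im = (z ^ 3).im - 2 := by
    have := congrArg Zsqrtd.im hN
    simpa using this
  -- reals
  obtain ⟨z1, z2⟩ := hz
  have nre' : 4 * (Q' : ℝ) * N.re = ((z ^ 3).re : ℝ) := by exact_mod_cast nre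
  have nim' : 4 * (Q' : ℝ) * N.im = ((z ^ 3).im : ℝ) - 2 := by exact_mod_cast nim
  set A : ℝ := ((z ^ 3).re : ℝ) with hA
  set B : ℝ := ((z ^ 3).im : ℝ) with hB
  set Z : ℝ := ((h * (2 * Q') * T : ℕ) : ℝ) with hZ
  have hQr : (1 : ℝ) ≤ Q' := by exact_mod_cast hQ
  have hTr : (1 : ℝ) ≤ T := by exact_mod_cast hT
  have hhr : (1 : ℝ) ≤ h := by exact_mod_cast hh
  have hLr : (1 : ℝ) ≤ L := by exact_mod_cast hL
  have hsr : (1 : ℝ) ≤ s := by exact_mod_cast hs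
  have hGr : (1 : ℝ) ≤ G := by exact_mod_cast hG
  have Zc : Z ^ 3 = h ^ 3 * (2 * Q') ^ 3 * T ^ 3 := by rw [hZ]; push_cast; ring
  have Zpos : 0 < Z ^ 3 := by rw [Zc]; positivity
  have Λc : 2 * (Q' : ℝ) * (Λ : ℝ) = Z ^ 3 * L := by rw [Zc, hΛdef]; push_cast; ring
  -- `10 Z³ / T ≥ 80 h³`
  have hZT : 16 * (h : ℝ) ^ 3 ≤ 10 * (Z ^ 3 / T) := by
    have e : Z ^ 3 / T = h ^ 3 * (2 * Q') ^ 3 * T ^ 2 := by
      rw [Zc]; field_simp
    rw [e]
    have q1 : (1 : ℝ) ≤ (Q' : ℝ) ^ 3 := one_le_pow₀ hQr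
    have q2 : (1 : ℝ) ≤ (T : ℝ) ^ 2 := one_le_pow₀ hTr
    have q3 : (1 : ℝ) ≤ (Q' : ℝ) ^ 3 * (T : ℝ) ^ 2 := by nlinarith
    have q4 : (0 : ℝ) < (h : ℝ) ^ 3 := by positivity
    calc 16 * (h : ℝ) ^ 3 ≤ 80 * (h : ℝ) ^ 3 * 1 := by nlinarith
      _ ≤ 80 * (h : ℝ) ^ 3 * ((Q' : ℝ) ^ 3 * (T : ℝ) ^ 2) := by gcongr
      _ = 10 * ((h : ℝ) ^ 3 * (2 * Q') ^ 3 * T ^ 2) := by ring
  have hh3 : (1 : ℝ) ≤ (h : ℝ) ^ 3 := one_le_pow₀ hhr
  -- bounds of the coordinates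
  have W1 : |(w.re : ℝ)| ≤ 4 * L := by
    rw [abs_le]
    constructor
    · have : (0 : ℝ) ≤ w.re := by
        have : (0 : ℤ) ≤ w.re := by omega
        exact_mod_cast this
      linarith
    · exact_mod_cast w2.le
  have W2 : |(w.im : ℝ)| ≤ L := by
    rw [abs_le]
    constructor
    · have : (0 : ℝ) ≤ w.im := by exact_mod_cast w3
      linarith
    · exact_mod_cast w4.le
  have hLh : (L : ℤ) ≤ (h : ℤ) ^ 3 * L := by
    have : (1 : ℤ) ≤ (h : ℤ) ^ 3 := one_le_pow₀ (by exact_mod_cast hh)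
    nlinarith
  push_cast at y1 y2 y4
  have T2 : |4 * (Q' : ℝ) * t2| ≤ 4 * (h : ℝ) ^ 3 * L := by
    have e : 4 * (Q' : ℝ) * t2 = 4 * ((w.im - y.im : ℤ) : ℝ) := by rw [ht2]; push_cast; ring
    have b : |(w.im - y.im : ℤ)| ≤ (h : ℤ) ^ 3 * L := by rw [abs_le]; omega
    have b' : |((w.im - y.im : ℤ) : ℝ)| ≤ (h : ℝ) ^ 3 * L := by exact_mod_cast b
    rw [e, abs_mul, abs_of_pos (by norm_num : (0 : ℝ) < 4)]
    linarith
  have T1 : |4 * (Q' : ℝ) * t1| ≤ 8 * (h : ℝ) ^ 3 * L := by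
    have e : 4 * (Q' : ℝ) * t1 = 2 * ((w.re - y.re : ℤ) : ℝ) := by rw [ht1]; push_cast; ring
    have b : |(w.re - y.re : ℤ)| ≤ 4 * ((h : ℤ) ^ 3 * L) := by rw [abs_le]; omega
    have b' : |((w.re - y.re : ℤ) : ℝ)| ≤ 4 * ((h : ℝ) ^ 3 * L) := by exact_mod_cast b
    rw [e, abs_mul, abs_of_pos (by norm_num : (0 : ℝ) < 2)]
    linarith
  have hsG : (0 : ℝ) < (s : ℝ) * G := by positivity
  have hΛpos : 0 < Λ := by rw [hΛdef]; positivity
  have hΛr : (0 : ℝ) < Λ := by exact_mod_cast hΛpos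
  -- the total error is at most `2 Z³ L / (s G)`
  have fin : ∀ E : ℝ, |E| ≤ 6 * δ * Z ^ 3 * L + 16 * (h : ℝ) ^ 3 * L →
      |E| * (s * G) ≤ 2 * Z ^ 3 * L := by
    intro E hE
    have h1 : |E| ≤ 2 * Z ^ 3 * L * (3 * δ + 5 / T) := by
      have : 2 * Z ^ 3 * L * (3 * δ + 5 / T) = 6 * δ * Z ^ 3 * L + 10 * (Z ^ 3 / T) * L := by
        field_simp; ring
      rw [this]
      have : 16 * (h : ℝ) ^ 3 * L ≤ 10 * (Z ^ 3 / T) * L := by gcongr
      linarith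
    have h2 : |E| ≤ 2 * Z ^ 3 * L * (1 / (s * G)) := h1.trans (by gcongr)
    calc |E| * (s * G) ≤ 2 * Z ^ 3 * L * (1 / (s * G)) * (s * G) := by gcongr
      _ = 2 * Z ^ 3 * L := by field_simp
  have trans : ∀ (X W : ℤ) (E : ℝ), 4 * (Q' : ℝ) * X - 2 * Z ^ 3 * W = E →
      |E| * (s * G) ≤ 2 * Z ^ 3 * L →
      |X * (L : ℤ) * ((s : ℤ) * G) - W * (Λ : ℤ) * ((s : ℤ) * G)| ≤ (Λ : ℤ) * L := by
    intro X W E hE hb
    have h1 : |(X : ℝ) * L * (s * G) - W * Λ * (s * G)| ≤ Λ * L := by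
      have h2 : (4 * (Q' : ℝ)) * ((X : ℝ) * L * (s * G) - W * Λ * (s * G)) =
          L * (E * (s * G)) := by
        rw [← hE]
        linear_combination (-2 * (W : ℝ) * (s * G)) * Λc
      have h3 : (4 * (Q' : ℝ)) * |(X : ℝ) * L * (s * G) - W * Λ * (s * G)| ≤
          (4 * (Q' : ℝ)) * (Λ * L) := by
        calc (4 * (Q' : ℝ)) * |(X : ℝ) * L * (s * G) - W * Λ * (s * G)|
            = |(4 * (Q' : ℝ)) * ((X : ℝ) * L * (s * G) - W * Λ * (s * G))| := by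
              rw [abs_mul, abs_of_pos (by positivity : (0 : ℝ) < 4 * (Q' : ℝ))]
          _ = L * (|E| * (s * G)) := by
              rw [h2, abs_mul, abs_mul, abs_of_pos hsG, abs_of_pos (by positivity : (0 : ℝ) < L)]
          _ ≤ L * (2 * Z ^ 3 * L) := by gcongr
          _ = (4 * (Q' : ℝ)) * (Λ * L) := by linear_combination (-2 * (L : ℝ)) * Λc
      exact le_of_mul_le_mul_left h3 (by positivity)
    exact_mod_cast h1
  have Ere : |x.re * (L : ℤ) * ((s : ℤ) * G) - w.re * (Λ : ℤ) * ((s : ℤ) * G)| ≤ (Λ : ℤ) * L := by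
    refine trans _ _ ((A - 2 * Z ^ 3) * w.re + 2 * (B - 2) * w.im + 4 * Q' * t2) ?_ (fin _ ?_)
    · rw [xre]; push_cast
      linear_combination (w.re : ℝ) * nre' + 2 * (w.im : ℝ) * nim'
    · calc |(A - 2 * Z ^ 3) * w.re + 2 * (B - 2) * w.im + 4 * Q' * t2|
          ≤ |(A - 2 * Z ^ 3) * w.re| + |2 * (B - 2) * w.im| + |4 * (Q' : ℝ) * t2| := abs_add_three _ _ _
        _ ≤ (δ * Z ^ 3) * (4 * L) + 2 * (δ * Z ^ 3 + 2) * L + 4 * (h : ℝ) ^ 3 * L := by
            gcongr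
            · rw [abs_mul]; gcongr
            · rw [abs_mul, abs_mul, abs_of_pos (by norm_num : (0 : ℝ) < 2)]
              gcongr
              calc |B - 2| ≤ |B| + |(2 : ℝ)| := abs_sub _ _
                _ ≤ δ * Z ^ 3 + 2 := by rw [abs_of_pos (by norm_num : (0 : ℝ) < 2)]; gcongr
        _ ≤ 6 * δ * Z ^ 3 * L + 16 * (h : ℝ) ^ 3 * L := by nlinarith
  have Eim : |x.im * (L : ℤ) * ((s : ℤ) * G) - w.im * (Λ : ℤ) * ((s : ℤ) * G)| ≤ (Λ : ℤ) * L := by
    refine trans _ _ ((A - 2 * Z ^ 3) * w.im + (B - 2) * w.re + 4 * Q' * t1) ?_ (fin _ ?_)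
    · rw [xim]; push_cast
      linear_combination (w.im : ℝ) * nre' + (w.re : ℝ) * nim'
    · calc |(A - 2 * Z ^ 3) * w.im + (B - 2) * w.re + 4 * Q' * t1|
          ≤ |(A - 2 * Z ^ 3) * w.im| + |(B - 2) * w.re| + |4 * (Q' : ℝ) * t1| := abs_add_three _ _ _
        _ ≤ (δ * Z ^ 3) * L + (δ * Z ^ 3 + 2) * (4 * L) + 8 * (h : ℝ) ^ 3 * L := by
            gcongr
            · rw [abs_mul]; gcongr
            · rw [abs_mul]
              gcongr
              calc |B - 2| ≤ |B| + |(2 : ℝ)| := abs_sub _ _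
                _ ≤ δ * Z ^ 3 + 2 := by rw [abs_of_pos (by norm_num : (0 : ℝ) < 2)]; gcongr
        _ ≤ 6 * δ * Z ^ 3 * L + 16 * (h : ℝ) ^ 3 * L := by
            have : 0 ≤ δ * Z ^ 3 * L := by positivity
            nlinarith
  obtain ⟨⟨g1, g2⟩, g3, g4⟩ := hg
  have hLz : (0 : ℤ) < L := by exact_mod_cast hL
  have hΛz : (0 : ℤ) < (Λ : ℤ) := by exact_mod_cast hΛpos
  have hsz : (0 : ℤ) < s := by exact_mod_cast hs
  have hGz : (0 : ℤ) < G := by exact_mod_cast hG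
  obtain ⟨r1, r2⟩ := cell_eq8 hLz hΛz hsz hGz g1 g2 Ere
  obtain ⟨i1, i2⟩ := cell_eq8 hLz hΛz hsz hGz g3 g4 Eim
  have R : x.re * s / (Λ : ℤ) = w.re * s / L := by rw [r2, r1]
  have Im : x.im * s / (Λ : ℤ) = w.im * s / L := by rw [i2, i1]
  refine ⟨?_, R, Im⟩
  rw [mem_box]
  refine ⟨⟨?_, ?_⟩, ?_, ?_⟩
  · have c1 : 2 * (s : ℤ) ≤ x.re * s / (Λ : ℤ) := by
      rw [R, Int.le_ediv_iff_mul_le hLz]
      have := mul_le_mul_of_nonneg_right w1 hsz.le
      linarith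
    rw [Int.le_ediv_iff_mul_le hΛz] at c1
    exact le_of_mul_le_mul_right (by linarith) hsz
  · have c1 : x.re * s / (Λ : ℤ) < 4 * (s : ℤ) := by
      rw [R, Int.ediv_lt_iff_lt_mul hLz]
      have := mul_lt_mul_of_pos_right w2 hsz
      linarith
    rw [Int.ediv_lt_iff_lt_mul hΛz] at c1
    exact lt_of_mul_lt_mul_right (by linarith) hsz.le
  · have c1 : 0 ≤ x.im * s / (Λ : ℤ) := by
      rw [Im, Int.le_ediv_iff_mul_le hLz]
      have := mul_nonneg w3 hsz.le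
      linarith
    rw [Int.le_ediv_iff_mul_le hΛz] at c1
    exact le_of_mul_le_mul_right (by linarith) hsz
  · have c1 : x.im * s / (Λ : ℤ) < (s : ℤ) := by
      rw [Im, Int.ediv_lt_iff_lt_mul hLz]
      have := mul_lt_mul_of_pos_right w4 hsz
      linarith
    rw [Int.ediv_lt_iff_lt_mul hΛz] at c1
    exact lt_of_mul_lt_mul_right (by linarith) hsz.le

end Pool.Agent.helper1.PR
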